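import Pool.Agent.Helper95.AG.Defs

/-! # Project AG (MP_9ee088_an), block M3: distribution of the next position

`h(t) = H(y + s t)`. Sublevel sets of `h - z` (first derivative if `|cos 2πy| ≥ 20 s`, second derivative otherwise), at most `4 ℓ + 2`
zeros of `cos 2πu` near the image, and a negative moment from `P(X < τ) ≤ √(K τ)`. -/

set_option autoImplicit false
open MeasureTheory Real Set
open scoped ENNReal

namespace Pool.Agent.Helper35.AG

open Pool.Agent.Helper95.AF (ip un)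

/-! ### negative moments -/

/-- pointwise: dyadic decomposition -/
lemma ip_le_sum {q f : ℝ} (hq : 0 < q) (hq1 : q ≤ 1 / 4) (hf0 : 0 ≤ f) :
    ip q f ≤ 1 + ∑' k : ℕ, (if f < (1 / 16) ^ k then (2 : ℝ≥0∞) ^ (k + 1) else 0) := by
  unfold ip
  rcases le_or_gt 1 f with h1 | h1
  · refine le_trans ?_ le_self_add
    have h2 : (1 : ℝ≥0∞) ≤ ENNReal.ofReal f := by
      rw [← ENNReal.ofReal_one]
      exact ENNReal.ofReal_le_ofReal h1
    calc ENNReal.ofReal f ^ (-q) ≤ 1 ^ (-q) := by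
          rw [ENNReal.rpow_neg, ENNReal.rpow_neg]
          exact ENNReal.inv_le_inv.2 (ENNReal.rpow_le_rpow h2 hq.le)
      _ = 1 := ENNReal.one_rpow _
  rcases hf0.eq_or_lt with h2 | h2
  · have h3 : ∑' k : ℕ, (if f < (1 / 16) ^ k then (2 : ℝ≥0∞) ^ (k + 1) else 0) = ⊤ := by
      rw [← top_le_iff, ← ENNReal.tsum_const_eq_top_of_ne_zero (α := ℕ) (one_ne_zero (α := ℝ≥0∞))]
      refine ENNReal.tsum_le_tsum fun k => ?_
      rw [if_pos (by rw [← h2]; positivity)]
      exact one_le_pow₀ (by norm_num)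
    rw [h3, add_top]
    exact le_top
  · have h3 : ∃ k : ℕ, (1 / 16 : ℝ) ^ (k + 1) ≤ f ∧ f < (1 / 16) ^ k := by
      obtain ⟨n, hn⟩ := exists_pow_lt_of_lt_one h2 (by norm_num : (1 / 16 : ℝ) < 1)
      have hP : ∃ n : ℕ, (1 / 16 : ℝ) ^ n ≤ f := ⟨n, hn.le⟩
      classical
      have h4 := Nat.find_spec hP
      have h5 : Nat.find hP ≠ 0 := by
        intro h0
        rw [h0, pow_zero] at h4
        linarith
      obtain ⟨k, hk⟩ := Nat.exists_eq_succ_of_ne_zero h5
      refine ⟨k, ?_, ?_⟩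
      · rw [hk] at h4
        exact h4
      · have := Nat.find_min hP (show k < Nat.find hP by omega)
        linarith [not_le.1 this]
    obtain ⟨k, hk1, hk2⟩ := h3
    refine le_trans ?_ le_add_self
    refine le_trans ?_ (ENNReal.le_tsum k)
    rw [if_pos hk2]
    have h4 : ENNReal.ofReal ((1 / 16) ^ (k + 1)) ≤ ENNReal.ofReal f := ENNReal.ofReal_le_ofReal hk1
    calc ENNReal.ofReal f ^ (-q) ≤ ENNReal.ofReal ((1 / 16) ^ (k + 1)) ^ (-q) := by
          rw [ENNReal.rpow_neg, ENNReal.rpow_neg]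
          exact ENNReal.inv_le_inv.2 (ENNReal.rpow_le_rpow h4 hq.le)
      _ = ENNReal.ofReal ((16 : ℝ) ^ (q * (k + 1))) := by
          rw [ENNReal.ofReal_rpow_of_pos (by positivity)]
          congr 1
          rw [one_div, inv_pow, Real.inv_rpow (by positivity), Real.rpow_neg (by positivity), inv_inv,
            ← Real.rpow_natCast, ← Real.rpow_mul (by norm_num)]
          congr 1
          push_cast
          ring
      _ ≤ ENNReal.ofReal ((16 : ℝ) ^ ((1 / 4 : ℝ) * (k + 1))) := by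
          refine ENNReal.ofReal_le_ofReal (Real.rpow_le_rpow_of_exponent_le (by norm_num) ?_)
          exact mul_le_mul_of_nonneg_right hq1 (by positivity)
      _ = (2 : ℝ≥0∞) ^ (k + 1) := by
          have e : (16 : ℝ) ^ ((1 / 4 : ℝ) * (k + 1)) = 2 ^ (k + 1) := by
            rw [show (16 : ℝ) = 2 ^ (4 : ℝ) by norm_num, ← Real.rpow_mul (by norm_num),
              show (4 : ℝ) * ((1 / 4 : ℝ) * (k + 1)) = ((k + 1 : ℕ) : ℝ) by push_cast; ring, Real.rpow_natCast]
          rw [e, ENNReal.ofReal_pow (by norm_num)]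
          norm_num

/-- a negative moment from the distribution function -/
theorem negmom {α : Type*} [MeasurableSpace α] {μ : Measure α} [IsProbabilityMeasure μ] {X : α → ℝ} (hX : Measurable X)
    (hX0 : ∀ t, 0 ≤ X t) {K : ℝ} (hK : 0 < K) (h : ∀ τ : ℝ, 0 < τ → μ {t | X t < τ} ≤ ENNReal.ofReal (√(K * τ)))
    {q : ℝ} (hq : 0 < q) (hq1 : q ≤ 1 / 4) :
    ∫⁻ t, ip q (X t) ∂μ ≤ ENNReal.ofReal (5 * K ^ q) := by
  have hset : ∀ k : ℕ, MeasurableSet {t | K * X t < (1 / 16) ^ k} := fun k =>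
    measurableSet_lt (hX.const_mul K) measurable_const
  have key : ∫⁻ t, ip q (K * X t) ∂μ ≤ 5 := by
    calc ∫⁻ t, ip q (K * X t) ∂μ ≤ ∫⁻ t, (1 + ∑' k : ℕ, ({t | K * X t < (1 / 16) ^ k}).indicator
            (fun _ => (2 : ℝ≥0∞) ^ (k + 1)) t) ∂μ := by
          refine lintegral_mono fun t => (ip_le_sum hq hq1 (mul_nonneg hK.le (hX0 t))).trans (le_of_eq ?_)
          congr 1
      _ = 1 + ∑' k : ℕ, 2 ^ (k + 1) * μ {t | K * X t < (1 / 16) ^ k} := by
          rw [lintegral_add_left measurable_const, lintegral_const, measure_univ, mul_one,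
            lintegral_tsum fun k => (measurable_const.indicator (hset k)).aemeasurable]
          congr 2
          funext k
          rw [lintegral_indicator (hset k), lintegral_const, Measure.restrict_apply MeasurableSet.univ, univ_inter]
      _ ≤ 1 + ∑' k : ℕ, 2 * (2⁻¹ : ℝ≥0∞) ^ k := by
          refine add_le_add_right (ENNReal.tsum_le_tsum fun k => ?_) _
          have h1 := h ((1 / 16) ^ k / K) (by positivity)
          have e1 : K * ((1 / 16 : ℝ) ^ k / K) = (1 / 16) ^ k := by field_simp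
          have h2 : √((1 / 16 : ℝ) ^ k) = (1 / 4) ^ k := by
            rw [show (1 / 16 : ℝ) = (1 / 4) ^ 2 by norm_num, ← pow_mul, mul_comm 2 k, pow_mul,
              Real.sqrt_sq (by positivity)]
          rw [e1, h2] at h1
          have e2 : {t | K * X t < (1 / 16) ^ k} = {t | X t < (1 / 16) ^ k / K} := by
            ext t
            simp only [mem_ofPred_eq]
            rw [lt_div_iff₀ hK, mul_comm]
          rw [e2]
          refine (mul_le_mul_of_nonneg_left h1 (zero_le)).trans (le_of_eq ?_)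
          have h3 : (2 : ℝ≥0∞) ^ (k + 1) = ENNReal.ofReal (2 ^ (k + 1)) := by
            rw [ENNReal.ofReal_pow (by norm_num)]
            norm_num
          have h4 : 2 * (2⁻¹ : ℝ≥0∞) ^ k = ENNReal.ofReal (2 * (1 / 2) ^ k) := by
            rw [ENNReal.ofReal_mul (by norm_num), ENNReal.ofReal_pow (by norm_num), one_div,
              ENNReal.ofReal_inv_of_pos (by norm_num)]
            norm_num
          rw [h3, h4, ← ENNReal.ofReal_mul (by positivity)]
          congr 1
          have h5 : (1 / 4 : ℝ) ^ k = (1 / 2) ^ k * (1 / 2) ^ k := by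
            rw [← mul_pow]
            norm_num
          have h6 : (2 : ℝ) ^ k * (1 / 2) ^ k = 1 := by
            rw [← mul_pow]
            norm_num
          rw [h5, pow_succ]
          linear_combination (2 * (1 / 2) ^ k) * h6
      _ = 5 := by
          rw [ENNReal.tsum_mul_left, ENNReal.tsum_geometric_two]
          norm_num
  have e3 : ∀ t, ip q (X t) = ENNReal.ofReal (K ^ q) * ip q (K * X t) := by
    intro t
    unfold ip
    rw [ENNReal.ofReal_mul hK.le, ENNReal.mul_rpow_of_ne_top ENNReal.ofReal_ne_top ENNReal.ofReal_ne_top, ← mul_assoc,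
      ENNReal.ofReal_rpow_of_pos hK, ← ENNReal.ofReal_mul (by positivity), ← Real.rpow_add hK, add_neg_cancel,
      Real.rpow_zero, ENNReal.ofReal_one, one_mul]
  rw [lintegral_congr e3, lintegral_const_mul' _ _ ENNReal.ofReal_ne_top]
  calc ENNReal.ofReal (K ^ q) * ∫⁻ t, ip q (K * X t) ∂μ ≤ ENNReal.ofReal (K ^ q) * 5 :=
        mul_le_mul_of_nonneg_left key zero_le
    _ = ENNReal.ofReal (5 * K ^ q) := by
        rw [mul_comm (5 : ℝ), ENNReal.ofReal_mul (by positivity)]
        congr 1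
        norm_num

/-! ### sublevel sets -/

lemma vol_diam {S : Set ℝ} {δ : ℝ} (h : ∀ x ∈ S, ∀ y ∈ S, |x - y| ≤ δ) : volume S ≤ ENNReal.ofReal (2 * δ) := by
  rcases S.eq_empty_or_nonempty with h0 | ⟨x₀, h0⟩
  · rw [h0, measure_empty]
    exact zero_le
  · have h1 : S ⊆ Icc (x₀ - δ) (x₀ + δ) := by
      intro x hx
      have := abs_le.1 (h x hx x₀ h0)
      exact ⟨by linarith [this.1], by linarith [this.2]⟩
    refine (measure_mono h1).trans ?_
    rw [Real.volume_Icc]
    exact ENNReal.ofReal_le_ofReal (by linarith)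

/-- first derivative -/
lemma sub1 {g g' : ℝ → ℝ} {m r : ℝ} (hm : 0 < m) (hg : ∀ t, HasDerivAt g (g' t) t)
    (h1 : ∀ t ∈ Icc (0 : ℝ) 1, m ≤ |g' t|) (z : ℝ) :
    volume {t ∈ Icc (0 : ℝ) 1 | |g t - z| < r} ≤ ENNReal.ofReal (4 * r / m) := by
  refine (vol_diam (δ := 2 * r / m) ?_).trans (le_of_eq (by congr 1; ring))
  have key : ∀ x ∈ {t ∈ Icc (0 : ℝ) 1 | |g t - z| < r}, ∀ y ∈ {t ∈ Icc (0 : ℝ) 1 | |g t - z| < r}, x < y →
      y - x ≤ 2 * r / m := by
    rintro x ⟨hx, hx'⟩ y ⟨hy, hy'⟩ hxy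
    obtain ⟨c, hc, hc'⟩ := exists_hasDerivAt_eq_slope g g' hxy
      (fun t _ => (hg t).continuousAt.continuousWithinAt) (fun t _ => hg t)
    have h2 : g' c * (y - x) = g y - g x := by
      rw [hc']
      field_simp [(sub_pos.2 hxy).ne']
    have h3 := h1 c ⟨hx.1.trans hc.1.le, hc.2.le.trans hy.2⟩
    have h4 : m * (y - x) ≤ |g y - g x| := by
      rw [← h2, abs_mul, abs_of_pos (sub_pos.2 hxy)]
      exact mul_le_mul_of_nonneg_right h3 (sub_pos.2 hxy).le
    have h5 : |g y - g x| ≤ |g y - z| + |g x - z| := by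
      have := abs_sub (g y - z) (g x - z)
      have e : g y - z - (g x - z) = g y - g x := by ring
      rwa [e] at this
    rw [le_div_iff₀ hm]
    linarith
  intro x hx y hy
  rcases lt_trichotomy x y with h | h | h
  · rw [abs_sub_comm, abs_of_pos (sub_pos.2 h)]
    exact key x hx y hy h
  · subst h
    rw [sub_self, abs_zero]
    have : 0 < r := lt_of_le_of_lt (abs_nonneg _) hx.2
    positivity
  · rw [abs_of_pos (sub_pos.2 h)]
    exact key y hy x hx h

/-- second derivative -/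
lemma sub2 {g g' : ℝ → ℝ} {M r : ℝ} (hM : 0 < M) (hr : 0 < r) (hg : ∀ t, HasDerivAt g (g' t) t)
    (h1 : ∀ x ∈ Icc (0 : ℝ) 1, ∀ y ∈ Icc (0 : ℝ) 1, x ≤ y → M * (y - x) ≤ g' y - g' x) (z : ℝ) :
    volume {t ∈ Icc (0 : ℝ) 1 | |g t - z| < r} ≤ ENNReal.ofReal (12 * √(r / M)) := by
  set σ : ℝ := √(r * M) with hσ
  have hσ0 : 0 < σ := Real.sqrt_pos.2 (by positivity)
  have e1 : σ / M = √(r / M) := by
    rw [hσ, div_eq_iff hM.ne', eq_comm, ← Real.sqrt_sq hM.le, ← Real.sqrt_mul (by positivity)]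
    congr 1
    rw [Real.sqrt_sq hM.le]
    field_simp
  have e2 : r / σ = √(r / M) := by
    rw [← e1, div_eq_div_iff hσ0.ne' hM.ne']
    rw [hσ, Real.mul_self_sqrt (by positivity)]
  have hsub : {t ∈ Icc (0 : ℝ) 1 | |g t - z| < r} ⊆
      ({t ∈ Icc (0 : ℝ) 1 | |g t - z| < r ∧ σ ≤ g' t} ∪ {t ∈ Icc (0 : ℝ) 1 | |g t - z| < r ∧ g' t ≤ -σ}) ∪
        {t ∈ Icc (0 : ℝ) 1 | |g' t| < σ} := by
    rintro t ⟨ht, ht'⟩
    rcases le_or_gt σ (g' t) with h | h
    · exact Or.inl (Or.inl ⟨ht, ht', h⟩)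
    · rcases le_or_gt (g' t) (-σ) with h2 | h2
      · exact Or.inl (Or.inr ⟨ht, ht', h2⟩)
      · exact Or.inr ⟨ht, abs_lt.2 ⟨h2, h⟩⟩
  have tri : ∀ x y : ℝ, |g x - z| < r → |g y - z| < r → |g y - g x| ≤ 2 * r := by
    intro x y hx hy
    have := abs_sub (g y - z) (g x - z)
    have e : g y - z - (g x - z) = g y - g x := by ring
    rw [e] at this
    linarith
  have a1 : volume {t ∈ Icc (0 : ℝ) 1 | |g t - z| < r ∧ σ ≤ g' t} ≤ ENNReal.ofReal (2 * (2 * r / σ)) := by
    refine vol_diam ?_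
    have key : ∀ x ∈ {t ∈ Icc (0 : ℝ) 1 | |g t - z| < r ∧ σ ≤ g' t},
        ∀ y ∈ {t ∈ Icc (0 : ℝ) 1 | |g t - z| < r ∧ σ ≤ g' t}, x < y → y - x ≤ 2 * r / σ := by
      rintro x ⟨hx, hx', hx2⟩ y ⟨hy, hy', hy2⟩ hxy
      obtain ⟨c, hc, hc'⟩ := exists_hasDerivAt_eq_slope g g' hxy
        (fun t _ => (hg t).continuousAt.continuousWithinAt) (fun t _ => hg t)
      have h2 : g' c * (y - x) = g y - g x := by
        rw [hc']
        field_simp [(sub_pos.2 hxy).ne']
      have h3 := h1 x hx c ⟨hx.1.trans hc.1.le, hc.2.le.trans hy.2⟩ hc.1.le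
      have h4 : 0 ≤ M * (c - x) := mul_nonneg hM.le (sub_nonneg.2 hc.1.le)
      have h5 : σ * (y - x) ≤ g y - g x := by
        rw [← h2]
        exact mul_le_mul_of_nonneg_right (by linarith) (sub_pos.2 hxy).le
      have h6 := tri x y hx' hy'
      rw [le_div_iff₀ hσ0]
      linarith [le_abs_self (g y - g x)]
    intro x hx y hy
    rcases lt_trichotomy x y with h | h | h
    · rw [abs_sub_comm, abs_of_pos (sub_pos.2 h)]
      exact key x hx y hy h
    · subst h
      rw [sub_self, abs_zero]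
      positivity
    · rw [abs_of_pos (sub_pos.2 h)]
      exact key y hy x hx h
  have a2 : volume {t ∈ Icc (0 : ℝ) 1 | |g t - z| < r ∧ g' t ≤ -σ} ≤ ENNReal.ofReal (2 * (2 * r / σ)) := by
    refine vol_diam ?_
    have key : ∀ x ∈ {t ∈ Icc (0 : ℝ) 1 | |g t - z| < r ∧ g' t ≤ -σ},
        ∀ y ∈ {t ∈ Icc (0 : ℝ) 1 | |g t - z| < r ∧ g' t ≤ -σ}, x < y → y - x ≤ 2 * r / σ := by
      rintro x ⟨hx, hx', hx2⟩ y ⟨hy, hy', hy2⟩ hxy
      obtain ⟨c, hc, hc'⟩ := exists_hasDerivAt_eq_slope g g' hxy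
        (fun t _ => (hg t).continuousAt.continuousWithinAt) (fun t _ => hg t)
      have h2 : g' c * (y - x) = g y - g x := by
        rw [hc']
        field_simp [(sub_pos.2 hxy).ne']
      have h3 := h1 c ⟨hx.1.trans hc.1.le, hc.2.le.trans hy.2⟩ y hy hc.2.le
      have h4 : 0 ≤ M * (y - c) := mul_nonneg hM.le (sub_nonneg.2 hc.2.le)
      have h5 : g y - g x ≤ -σ * (y - x) := by
        rw [← h2]
        exact mul_le_mul_of_nonneg_right (by linarith) (sub_pos.2 hxy).le
      have h6 := tri x y hx' hy'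
      rw [le_div_iff₀ hσ0]
      linarith [neg_abs_le (g y - g x)]
    intro x hx y hy
    rcases lt_trichotomy x y with h | h | h
    · rw [abs_sub_comm, abs_of_pos (sub_pos.2 h)]
      exact key x hx y hy h
    · subst h
      rw [sub_self, abs_zero]
      positivity
    · rw [abs_of_pos (sub_pos.2 h)]
      exact key y hy x hx h
  have a3 : volume {t ∈ Icc (0 : ℝ) 1 | |g' t| < σ} ≤ ENNReal.ofReal (2 * (2 * σ / M)) := by
    refine vol_diam ?_
    have key : ∀ x ∈ {t ∈ Icc (0 : ℝ) 1 | |g' t| < σ}, ∀ y ∈ {t ∈ Icc (0 : ℝ) 1 | |g' t| < σ}, x < y →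
        y - x ≤ 2 * σ / M := by
      rintro x ⟨hx, hx'⟩ y ⟨hy, hy'⟩ hxy
      have h3 := h1 x hx y hy hxy.le
      have h4 := abs_lt.1 hx'
      have h5 := abs_lt.1 hy'
      rw [le_div_iff₀ hM]
      linarith [h4.1, h5.2]
    intro x hx y hy
    rcases lt_trichotomy x y with h | h | h
    · rw [abs_sub_comm, abs_of_pos (sub_pos.2 h)]
      exact key x hx y hy h
    · subst h
      rw [sub_self, abs_zero]
      positivity
    · rw [abs_of_pos (sub_pos.2 h)]
      exact key y hy x hx h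
  calc volume {t ∈ Icc (0 : ℝ) 1 | |g t - z| < r} ≤
      (ENNReal.ofReal (2 * (2 * r / σ)) + ENNReal.ofReal (2 * (2 * r / σ))) + ENNReal.ofReal (2 * (2 * σ / M)) :=
        (measure_mono hsub).trans ((measure_union_le _ _).trans (add_le_add
          ((measure_union_le _ _).trans (add_le_add a1 a2)) a3))
    _ = ENNReal.ofReal (12 * √(r / M)) := by
        rw [← ENNReal.ofReal_add (by positivity) (by positivity), ← ENNReal.ofReal_add (by positivity) (by positivity)]
        congr 1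
        have e3 : 2 * r / σ = 2 * √(r / M) := by rw [← e2]; ring
        have e4 : 2 * σ / M = 2 * √(r / M) := by rw [← e1]; ring
        rw [e3, e4]
        ring

/-! ### zeros of the cosine -/

lemma cos_small {u τ : ℝ} (h : |Real.cos (2 * π * u)| < τ) : ∃ k : ℤ, |u - (2 * k + 1) / 4| < τ / 4 := by
  set v : ℝ := 2 * u - 1 / 2 with hv
  have e1 : Real.cos (2 * π * u) = -Real.sin (π * v) := by
    rw [← Real.cos_add_pi_div_two]
    congr 1
    rw [hv]
    ring
  have hpi := Real.pi_pos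
  set w : ℝ := v - round v with hw
  have hw1 : |w| ≤ 1 / 2 := abs_sub_round v
  have h1 : |Real.sin (π * v)| = |Real.sin (π * |w|)| := by
    have e2 : π * v = π * w + (round v : ℝ) * π := by rw [hw]; ring
    have e3 : |Real.sin (π * v)| = |Real.sin (π * w)| := by
      rw [e2, Real.sin_add_int_mul_pi, abs_mul]
      have : |((-1 : ℝ) ^ (round v))| = 1 := by
        rw [abs_zpow, abs_neg, abs_one, one_zpow]
      rw [this, one_mul]
    rw [e3]
    rcases abs_cases w with ⟨h, _⟩ | ⟨h, _⟩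
    · rw [h]
    · rw [h, mul_neg, Real.sin_neg, abs_neg]
  have h2 : 0 ≤ π * |w| := by positivity
  have h3 : π * |w| ≤ π / 2 := by nlinarith
  have h4 := Real.mul_le_sin h2 h3
  have h5 : 2 / π * (π * |w|) = 2 * |w| := by field_simp
  rw [h5] at h4
  rw [e1, abs_neg, h1] at h
  have h6 : 2 * |w| < τ := lt_of_le_of_lt (h4.trans (le_abs_self _)) h
  refine ⟨round v, ?_⟩
  have e4 : u - (2 * (round v : ℝ) + 1) / 4 = w / 2 := by
    rw [hw, hv]
    ring
  rw [e4, abs_div, abs_of_pos (by norm_num : (0 : ℝ) < 2)]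
  linarith

/-- at most `4 ℓ + 2` zeros of the cosine are near the image -/
lemma cos_zeros {h : ℝ → ℝ} {ℓ τ Φ : ℝ} (hℓ : 0 ≤ ℓ) (hτ1 : τ ≤ 1) (hΦ : 0 ≤ Φ)
    (h1 : ∀ t ∈ Icc (0 : ℝ) 1, |h t - h 0| ≤ ℓ)
    (h2 : ∀ z, volume {t ∈ Icc (0 : ℝ) 1 | |h t - z| < τ / 4} ≤ ENNReal.ofReal Φ) :
    volume {t ∈ Icc (0 : ℝ) 1 | |Real.cos (2 * π * h t)| < τ} ≤ ENNReal.ofReal ((4 * ℓ + 2) * Φ) := by
  set A : ℤ := ⌈2 * (h 0 - ℓ - 1 / 4) - 1 / 2⌉ with hA
  set B : ℤ := ⌊2 * (h 0 + ℓ + 1 / 4) - 1 / 2⌋ with hB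
  have hsub : {t ∈ Icc (0 : ℝ) 1 | |Real.cos (2 * π * h t)| < τ} ⊆
      ⋃ k ∈ Finset.Icc A B, {t ∈ Icc (0 : ℝ) 1 | |h t - (2 * k + 1) / 4| < τ / 4} := by
    rintro t ⟨ht, ht'⟩
    obtain ⟨k, hk⟩ := cos_small ht'
    have h3 := abs_le.1 (h1 t ht)
    have h4 := abs_lt.1 hk
    refine mem_iUnion₂.2 ⟨k, Finset.mem_Icc.2 ⟨?_, ?_⟩, ht, hk⟩
    · rw [hA, Int.ceil_le]
      linarith [h3.1, h4.2]
    · rw [hB, Int.le_floor]
      linarith [h3.2, h4.1]
  have hcard : ((Finset.Icc A B).card : ℝ) ≤ 4 * ℓ + 2 := by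
    rw [Int.card_Icc]
    have h5 : ((B + 1 - A).toNat : ℝ) = (((B + 1 - A).toNat : ℤ) : ℝ) := by norm_cast
    rw [h5, Int.toNat_eq_max]
    have h6 : (B : ℝ) ≤ 2 * (h 0 + ℓ + 1 / 4) - 1 / 2 := Int.floor_le _
    have h7 : 2 * (h 0 - ℓ - 1 / 4) - 1 / 2 ≤ (A : ℝ) := Int.le_ceil _
    push_cast
    exact max_le (by linarith) (by linarith)
  calc volume {t ∈ Icc (0 : ℝ) 1 | |Real.cos (2 * π * h t)| < τ} ≤
      volume (⋃ k ∈ Finset.Icc A B, {t ∈ Icc (0 : ℝ) 1 | |h t - (2 * k + 1) / 4| < τ / 4}) := measure_mono hsub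
    _ ≤ ∑ k ∈ Finset.Icc A B, volume {t ∈ Icc (0 : ℝ) 1 | |h t - (2 * k + 1) / 4| < τ / 4} :=
        measure_biUnion_finset_le _ _
    _ ≤ ∑ _k ∈ Finset.Icc A B, ENNReal.ofReal Φ := Finset.sum_le_sum fun k _ => h2 _
    _ = ENNReal.ofReal ((Finset.Icc A B).card * Φ) := by
        rw [Finset.sum_const, nsmul_eq_mul, ENNReal.ofReal_mul (by positivity), ENNReal.ofReal_natCast]
    _ ≤ ENNReal.ofReal ((4 * ℓ + 2) * Φ) := ENNReal.ofReal_le_ofReal (mul_le_mul_of_nonneg_right hcard hΦ)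

/-! ### the map -/

section map

variable (a s y b : ℝ)

/-- the next position -/
noncomputable def hh (t : ℝ) : ℝ := 2 * (y + s * t) + a * Real.sin (2 * π * (y + s * t)) + b

/-- its derivative -/
noncomputable def hd (t : ℝ) : ℝ := s * (2 + 2 * π * a * Real.cos (2 * π * (y + s * t)))

lemma hh_deriv (t : ℝ) : HasDerivAt (hh a s y b) (hd a s y t) t := by
  have h1 : HasDerivAt (fun t : ℝ => y + s * t) s t := by
    simpa using ((hasDerivAt_id t).const_mul s).const_add y
  have h2 : HasDerivAt (fun t : ℝ => 2 * π * (y + s * t)) (2 * π * s) t := h1.const_mul (2 * π)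
  have h3 : HasDerivAt (fun t : ℝ => Real.sin (2 * π * (y + s * t))) (Real.cos (2 * π * (y + s * t)) * (2 * π * s)) t :=
    h2.sin
  have h4 := ((h1.const_mul 2).add (h3.const_mul a)).add_const b
  refine h4.congr_deriv ?_
  unfold hd
  ring

lemma hd_deriv (t : ℝ) : HasDerivAt (hd a s y) (-(4 * π ^ 2 * a * s ^ 2 * Real.sin (2 * π * (y + s * t)))) t := by
  have h1 : HasDerivAt (fun t : ℝ => y + s * t) s t := by
    simpa using ((hasDerivAt_id t).const_mul s).const_add y
  have h2 : HasDerivAt (fun t : ℝ => 2 * π * (y + s * t)) (2 * π * s) t := h1.const_mul (2 * π)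
  have h3 : HasDerivAt (fun t : ℝ => Real.cos (2 * π * (y + s * t))) (-Real.sin (2 * π * (y + s * t)) * (2 * π * s)) t :=
    h2.cos
  have h4 := ((h3.const_mul (2 * π * a)).const_add 2).const_mul s
  refine h4.congr_deriv ?_
  ring

variable {a s y}

lemma cos_near (hs : 0 < s) {t : ℝ} (ht : t ∈ Icc (0 : ℝ) 1) :
    |Real.cos (2 * π * (y + s * t)) - Real.cos (2 * π * y)| ≤ 2 * π * s := by
  have h1 := Real.abs_cos_sub_cos_le (2 * π * (y + s * t)) (2 * π * y)
  have e1 : |2 * π * (y + s * t) - 2 * π * y| = 2 * π * s * t := by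
    rw [show 2 * π * (y + s * t) - 2 * π * y = 2 * π * s * t by ring, abs_of_nonneg]
    have := ht.1
    positivity
  rw [e1] at h1
  have h2 : 2 * π * s * t ≤ 2 * π * s * 1 := mul_le_mul_of_nonneg_left ht.2 (by positivity)
  linarith

lemma sin_near (hs : 0 < s) {t : ℝ} (ht : t ∈ Icc (0 : ℝ) 1) :
    |Real.sin (2 * π * (y + s * t)) - Real.sin (2 * π * y)| ≤ 2 * π * s := by
  have h1 := Real.abs_sin_sub_sin_le (2 * π * (y + s * t)) (2 * π * y)
  have e1 : |2 * π * (y + s * t) - 2 * π * y| = 2 * π * s * t := by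
    rw [show 2 * π * (y + s * t) - 2 * π * y = 2 * π * s * t by ring, abs_of_nonneg]
    have := ht.1
    positivity
  rw [e1] at h1
  have h2 : 2 * π * s * t ≤ 2 * π * s * 1 := mul_le_mul_of_nonneg_left ht.2 (by positivity)
  linarith

/-- bound of the image -/
lemma image_le {ℓ : ℝ} (h : ∀ t ∈ Icc (0 : ℝ) 1, |hd a s y t| ≤ ℓ) (hℓ : 0 ≤ ℓ) :
    ∀ t ∈ Icc (0 : ℝ) 1, |hh a s y b t - hh a s y b 0| ≤ ℓ := by
  intro t ht
  rcases ht.1.eq_or_lt with h0 | h0
  · rw [← h0, sub_self, abs_zero]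
    exact hℓ
  · obtain ⟨c, hc, hc'⟩ := exists_hasDerivAt_eq_slope (hh a s y b) (hd a s y) h0
      (fun t _ => (hh_deriv a s y b t).continuousAt.continuousWithinAt) (fun t _ => hh_deriv a s y b t)
    have h2 : hd a s y c * t = hh a s y b t - hh a s y b 0 := by
      rw [hc', sub_zero]
      field_simp
    rw [← h2, abs_mul, abs_of_pos h0]
    have h3 := h c ⟨hc.1.le, hc.2.le.trans ht.2⟩
    calc |hd a s y c| * t ≤ ℓ * 1 := mul_le_mul h3 ht.2 h0.le hℓ
      _ = ℓ := mul_one ℓ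

/-- case 2: near a critical point -/
lemma flat (ha : 1000000 ≤ |a|) (hs : 0 < s) (hs1 : s ≤ 1 / 1000) (hD : |Real.cos (2 * π * y)| < 20 * s) {r : ℝ}
    (hr : 0 < r) (z : ℝ) :
    volume {t ∈ Icc (0 : ℝ) 1 | |hh a s y b t - z| < r} ≤ ENNReal.ofReal (12 * √(r / (38 * |a| * s ^ 2))) := by
  have hpi := Real.pi_gt_d2
  have hpi2 := Real.pi_lt_d2
  have ha0 : 0 < |a| := by linarith
  have hM : 0 < 38 * |a| * s ^ 2 := by positivity
  have hS : (999 / 1000 : ℝ) ≤ |Real.sin (2 * π * y)| := by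
    have h1 := Real.sin_sq_add_cos_sq (2 * π * y)
    have h2 : |Real.cos (2 * π * y)| ≤ 1 / 50 := by linarith
    have h3 : Real.cos (2 * π * y) ^ 2 ≤ (1 / 50) ^ 2 := by
      rw [← sq_abs]
      exact pow_le_pow_left₀ (abs_nonneg _) h2 2
    by_contra hcon
    push Not at hcon
    have h4 : Real.sin (2 * π * y) ^ 2 ≤ (999 / 1000) ^ 2 := by
      rw [← sq_abs]
      exact pow_le_pow_left₀ (abs_nonneg _) hcon.le 2
    norm_num at h3 h4
    linarith
  have hnear : ∀ t ∈ Icc (0 : ℝ) 1, |Real.sin (2 * π * (y + s * t)) - Real.sin (2 * π * y)| ≤ 1 / 150 := by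
    intro t ht
    refine (sin_near hs ht).trans ?_
    nlinarith
  -- the second derivative in the good sign
  have key : ∀ e : ℝ, |e| = 1 → e * (a * Real.sin (2 * π * y)) ≤ 0 → ∀ t ∈ Icc (0 : ℝ) 1,
      38 * |a| * s ^ 2 ≤ e * (-(4 * π ^ 2 * a * s ^ 2 * Real.sin (2 * π * (y + s * t)))) := by
    intro e he h1 t ht
    have h2 : e * (a * Real.sin (2 * π * y)) = -(|a| * |Real.sin (2 * π * y)|) := by
      rw [← abs_mul, ← one_mul |a * Real.sin (2 * π * y)|, ← he, ← abs_mul, abs_of_nonpos h1, neg_neg]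
    have h3 : e * (a * Real.sin (2 * π * (y + s * t))) ≤ -(99 / 100 * |a|) := by
      have h4 : e * (a * Real.sin (2 * π * (y + s * t))) = e * (a * Real.sin (2 * π * y)) +
          e * a * (Real.sin (2 * π * (y + s * t)) - Real.sin (2 * π * y)) := by ring
      have h5 : |e * a * (Real.sin (2 * π * (y + s * t)) - Real.sin (2 * π * y))| ≤ |a| * (1 / 150) := by
        rw [abs_mul, abs_mul, he, one_mul]
        exact mul_le_mul_of_nonneg_left (hnear t ht) ha0.le
      have h6 : |a| * (999 / 1000) ≤ |a| * |Real.sin (2 * π * y)| := mul_le_mul_of_nonneg_left hS ha0.le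
      rw [h4, h2]
      linarith [(abs_le.1 h5).2]
    have h7 : e * (-(4 * π ^ 2 * a * s ^ 2 * Real.sin (2 * π * (y + s * t)))) =
        4 * π ^ 2 * s ^ 2 * (-(e * (a * Real.sin (2 * π * (y + s * t))))) := by ring
    rw [h7]
    have h8 : (39 : ℝ) ≤ 4 * π ^ 2 := by nlinarith
    calc 38 * |a| * s ^ 2 ≤ 39 * s ^ 2 * (99 / 100 * |a|) := by nlinarith [mul_pos ha0 (pow_pos hs 2)]
      _ ≤ 4 * π ^ 2 * s ^ 2 * (-(e * (a * Real.sin (2 * π * (y + s * t))))) :=
          mul_le_mul (mul_le_mul_of_nonneg_right h8 (by positivity)) (by linarith) (by positivity) (by positivity)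
  have slope : ∀ e : ℝ, |e| = 1 → e * (a * Real.sin (2 * π * y)) ≤ 0 →
      ∀ x ∈ Icc (0 : ℝ) 1, ∀ x' ∈ Icc (0 : ℝ) 1, x ≤ x' →
        38 * |a| * s ^ 2 * (x' - x) ≤ e * hd a s y x' - e * hd a s y x := by
    intro e he h1 x hx x' hx' hxx
    rcases hxx.eq_or_lt with h0 | h0
    · subst h0
      simp
    · obtain ⟨c, hc, hc'⟩ := exists_hasDerivAt_eq_slope (fun t => e * hd a s y t) _ h0
        (fun t _ => ((hd_deriv a s y t).const_mul e).continuousAt.continuousWithinAt)
        (fun t _ => (hd_deriv a s y t).const_mul e)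
      have h2 := key e he h1 c ⟨hx.1.trans hc.1.le, hc.2.le.trans hx'.2⟩
      rw [hc', le_div_iff₀ (sub_pos.2 h0)] at h2
      exact h2
  rcases le_or_gt (a * Real.sin (2 * π * y)) 0 with h1 | h1
  · have h2 := slope 1 abs_one (by rwa [one_mul])
    simp only [one_mul] at h2
    exact sub2 hM hr (fun t => hh_deriv a s y b t) h2 z
  · have h2 := slope (-1) (by rw [abs_neg, abs_one]) (by linarith)
    have h3 := sub2 (g := fun t => -1 * hh a s y b t) (g' := fun t => -1 * hd a s y t) hM hr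
      (fun t => (hh_deriv a s y b t).const_mul (-1)) h2 (-z)
    have e1 : {t ∈ Icc (0 : ℝ) 1 | |hh a s y b t - z| < r} =
        {t ∈ Icc (0 : ℝ) 1 | |-1 * hh a s y b t - -z| < r} := by
      ext t
      simp only [mem_ofPred_eq]
      rw [show -1 * hh a s y b t - -z = -(hh a s y b t - z) by ring, abs_neg]
    rw [e1]
    exact h3

end map

/-- **M3**: distribution of the next position `H(x) = 2 x + a sin 2πx + b`, `κ = |cos 2πy| + s`. -/
theorem m3 : ∃ C : ℝ, 1 ≤ C ∧ ∀ a s y b q : ℝ, 1000000 ≤ |a| → 0 < s → s ≤ 1 / 1000 → 1000 ≤ |a| * s → |a| * s ^ 2 ≤ 1 →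
    0 < q → q ≤ 1 / 4 →
    ∫⁻ t, ip q |Real.cos (2 * π * (2 * (y + s * t) + a * Real.sin (2 * π * (y + s * t)) + b))| ∂un ≤
      ENNReal.ofReal (C * (min 1 (|a| * s * (|Real.cos (2 * π * y)| + s))) ^ (-q)) := by
  refine ⟨5 * 10 ^ 7, by norm_num, fun a s y b q ha hs hs1 has has2 hq hq1 => ?_⟩
  have hpi := Real.pi_gt_d2
  have hpi2 := Real.pi_lt_d2
  have ha0 : 0 < |a| := by linarith
  set D : ℝ := |Real.cos (2 * π * y)| with hD
  have hD0 : 0 ≤ D := abs_nonneg _
  set W : ℝ := min 1 (|a| * s * (D + s)) with hW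
  have hW0 : 0 < W := lt_min one_pos (by positivity)
  have hW1 : W ≤ 1 := min_le_left _ _
  have hprob : IsProbabilityMeasure un := ⟨by
    unfold un
    rw [Measure.restrict_apply MeasurableSet.univ, univ_inter, Real.volume_Icc]
    norm_num⟩
  have hmeas : Measurable fun t : ℝ => |Real.cos (2 * π * hh a s y b t)| := by
    unfold hh
    fun_prop
  have hvol : ∀ τ : ℝ, un {t | |Real.cos (2 * π * hh a s y b t)| < τ} =
      volume {t ∈ Icc (0 : ℝ) 1 | |Real.cos (2 * π * hh a s y b t)| < τ} := by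
    intro τ
    unfold un
    rw [Measure.restrict_apply (measurableSet_lt hmeas measurable_const), inter_comm]
    rfl
  have key : ∀ τ : ℝ, 0 < τ → un {t | |Real.cos (2 * π * hh a s y b t)| < τ} ≤ ENNReal.ofReal (√(10 ^ 7 / W * τ)) := by
    intro τ hτ
    rcases lt_or_ge 1 τ with h1 | h1
    · refine prob_le_one.trans ?_
      rw [← ENNReal.ofReal_one]
      refine ENNReal.ofReal_le_ofReal ?_
      rw [Real.le_sqrt' one_pos, one_pow]
      have h2 : (1 : ℝ) ≤ 10 ^ 7 / W := by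
        rw [le_div_iff₀ hW0]
        linarith
      nlinarith
    rcases le_or_gt (20 * s) D with hDs | hDs
    · -- far from the critical points
      have hDp : 0 < D := lt_of_lt_of_le (by positivity) hDs
      set Λ : ℝ := |a| * D * s with hΛ
      have hΛ0 : 0 < Λ := by positivity
      have haD : 20000 ≤ |a| * D := by nlinarith
      have hnear : ∀ t ∈ Icc (0 : ℝ) 1, 68 / 100 * D ≤ |Real.cos (2 * π * (y + s * t))| ∧
          |Real.cos (2 * π * (y + s * t))| ≤ 132 / 100 * D := by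
        intro t ht
        have h2 := cos_near (y := y) hs ht
        have h3 : 2 * π * s ≤ 32 / 100 * D := by nlinarith
        have h4 := abs_sub_abs_le_abs_sub (Real.cos (2 * π * (y + s * t))) (Real.cos (2 * π * y))
        have h5 := abs_sub_abs_le_abs_sub (Real.cos (2 * π * y)) (Real.cos (2 * π * (y + s * t)))
        rw [abs_sub_comm (Real.cos (2 * π * y))] at h5
        rw [← hD] at h4 h5
        constructor <;> linarith
      have hder : ∀ t ∈ Icc (0 : ℝ) 1, 4 * Λ ≤ |hd a s y t| ∧ |hd a s y t| ≤ 9 * Λ := by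
        intro t ht
        obtain ⟨h2, h3⟩ := hnear t ht
        have e1 : |2 * π * a * Real.cos (2 * π * (y + s * t))| = 2 * π * (|a| * |Real.cos (2 * π * (y + s * t))|) := by
          rw [abs_mul, abs_mul, abs_mul, abs_of_pos Real.pi_pos, abs_two]
          ring
        have h4 : |a| * (68 / 100 * D) ≤ |a| * |Real.cos (2 * π * (y + s * t))| := mul_le_mul_of_nonneg_left h2 ha0.le
        have h5 : |a| * |Real.cos (2 * π * (y + s * t))| ≤ |a| * (132 / 100 * D) := mul_le_mul_of_nonneg_left h3 ha0.le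
        have h6 := abs_sub_abs_le_abs_sub (2 * π * a * Real.cos (2 * π * (y + s * t))) (-2)
        have h7 := abs_add_le 2 (2 * π * a * Real.cos (2 * π * (y + s * t)))
        rw [abs_neg, abs_two, sub_neg_eq_add, add_comm _ (2 : ℝ), e1] at h6
        rw [abs_two, e1] at h7
        have h8 : 427 / 100 * (|a| * D) ≤ 2 * π * (|a| * |Real.cos (2 * π * (y + s * t))|) := by nlinarith
        have h9 : 2 * π * (|a| * |Real.cos (2 * π * (y + s * t))|) ≤ 832 / 100 * (|a| * D) := by nlinarith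
        unfold hd
        rw [abs_mul, abs_of_pos hs, hΛ]
        constructor
        · nlinarith
        · nlinarith
      have h2 := cos_zeros (h := hh a s y b) (ℓ := 9 * Λ) (τ := τ) (Φ := 4 * (τ / 4) / (4 * Λ)) (by positivity) h1
        (by positivity) (image_le b (fun t ht => (hder t ht).2) (by positivity))
        (fun z => sub1 (by positivity) (fun t => hh_deriv a s y b t) (fun t ht => (hder t ht).1) z)
      have h3 : (4 * (9 * Λ) + 2) * (4 * (τ / 4) / (4 * Λ)) ≤ 10 ^ 7 / W * τ := by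
        have h4 : (4 * (9 * Λ) + 2) * (4 * (τ / 4) / (4 * Λ)) = (9 + 1 / (2 * Λ)) * τ := by
          field_simp
          ring
        rw [h4]
        refine mul_le_mul_of_nonneg_right ?_ hτ.le
        have h5 : W ≤ 105 / 100 * Λ := by
          refine (min_le_right _ _).trans ?_
          rw [hΛ]
          nlinarith [mul_pos ha0 hs]
        have h6 : (9 : ℝ) ≤ 9 / W := by
          rw [le_div_iff₀ hW0]
          linarith
        have h7 : 1 / (2 * Λ) ≤ 1 / W := by
          refine one_div_le_one_div_of_le hW0 ?_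
          linarith
        calc 9 + 1 / (2 * Λ) ≤ 9 / W + 1 / W := add_le_add h6 h7
          _ = 10 / W := by ring
          _ ≤ 10 ^ 7 / W := by gcongr; norm_num
      set v : ℝ := 10 ^ 7 / W * τ with hv
      have hv0 : 0 < v := by positivity
      rcases le_or_gt v 1 with h4 | h4
      · rw [hvol]
        refine h2.trans (ENNReal.ofReal_le_ofReal (h3.trans ?_))
        rw [Real.le_sqrt' hv0]
        nlinarith
      · refine prob_le_one.trans ?_
        rw [← ENNReal.ofReal_one]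
        refine ENNReal.ofReal_le_ofReal ?_
        rw [Real.le_sqrt' one_pos, one_pow]
        exact h4.le
    · -- near a critical point
      have hder : ∀ t ∈ Icc (0 : ℝ) 1, |hd a s y t| ≤ 166 := by
        intro t ht
        have h2 := cos_near (y := y) hs ht
        have h4 := abs_sub_abs_le_abs_sub (Real.cos (2 * π * (y + s * t))) (Real.cos (2 * π * y))
        rw [← hD] at h4
        have h3 : |Real.cos (2 * π * (y + s * t))| ≤ 263 / 10 * s := by nlinarith
        have e1 : |2 * π * a * Real.cos (2 * π * (y + s * t))| = 2 * π * (|a| * |Real.cos (2 * π * (y + s * t))|) := by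
          rw [abs_mul, abs_mul, abs_mul, abs_of_pos Real.pi_pos, abs_two]
          ring
        have h5 : |a| * |Real.cos (2 * π * (y + s * t))| ≤ |a| * (263 / 10 * s) := mul_le_mul_of_nonneg_left h3 ha0.le
        have h7 := abs_add_le 2 (2 * π * a * Real.cos (2 * π * (y + s * t)))
        rw [abs_two, e1] at h7
        have h9 : 2 * π * (|a| * |Real.cos (2 * π * (y + s * t))|) ≤ 1657 / 10 * (|a| * s) := by nlinarith [mul_pos ha0 hs]
        unfold hd
        rw [abs_mul, abs_of_pos hs]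
        calc s * |2 + 2 * π * a * Real.cos (2 * π * (y + s * t))| ≤ s * (2 + 1657 / 10 * (|a| * s)) :=
              mul_le_mul_of_nonneg_left (h7.trans (by linarith)) hs.le
          _ = 2 * s + 1657 / 10 * (|a| * s ^ 2) := by ring
          _ ≤ 166 := by linarith
      have h2 := cos_zeros (h := hh a s y b) (ℓ := 166) (τ := τ) (Φ := 12 * √(τ / 4 / (38 * |a| * s ^ 2))) (by norm_num) h1
        (by positivity) (image_le b hder (by norm_num))
        (fun z => flat b ha hs hs1 hDs (by positivity) z)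
      rw [hvol]
      refine h2.trans (ENNReal.ofReal_le_ofReal ?_)
      have h3 : (4 * 166 + 2) * (12 * √(τ / 4 / (38 * |a| * s ^ 2))) = √((666 * 12) ^ 2 * (τ / 4 / (38 * |a| * s ^ 2))) := by
        rw [Real.sqrt_mul (by positivity), Real.sqrt_sq (by norm_num)]
        ring
      rw [h3]
      refine Real.sqrt_le_sqrt ?_
      have h4 : W ≤ 21 * (|a| * s ^ 2) := by
        refine (min_le_right _ _).trans ?_
        nlinarith [mul_pos ha0 hs]
      have h5 : (666 * 12 : ℝ) ^ 2 * (τ / 4 / (38 * |a| * s ^ 2)) = (666 * 12) ^ 2 / 152 * τ / (|a| * s ^ 2) := by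
        field_simp
        ring
      rw [h5, div_le_iff₀ (by positivity)]
      have h6 : 1 ≤ 21 * (|a| * s ^ 2) / W := by
        rw [le_div_iff₀ hW0, one_mul]
        exact h4
      calc (666 * 12 : ℝ) ^ 2 / 152 * τ ≤ (666 * 12 : ℝ) ^ 2 / 152 * τ * (21 * (|a| * s ^ 2) / W) :=
            le_mul_of_one_le_right (by positivity) h6
        _ = ((666 * 12 : ℝ) ^ 2 / 152 * 21) * (1 / W * τ * (|a| * s ^ 2)) := by ring
        _ ≤ 10 ^ 7 * (1 / W * τ * (|a| * s ^ 2)) := mul_le_mul_of_nonneg_right (by norm_num) (by positivity)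
        _ = 10 ^ 7 / W * τ * (|a| * s ^ 2) := by ring
  have h1 := negmom (μ := un) hmeas (fun t => abs_nonneg _) (K := 10 ^ 7 / W) (by positivity) key hq hq1
  refine h1.trans (ENNReal.ofReal_le_ofReal ?_)
  rw [Real.div_rpow (by norm_num) hW0.le, Real.rpow_neg hW0.le, div_eq_mul_inv, ← mul_assoc]
  refine mul_le_mul_of_nonneg_right ?_ (inv_nonneg.2 (Real.rpow_nonneg hW0.le _))
  refine mul_le_mul_of_nonneg_left ?_ (by norm_num)
  calc ((10 : ℝ) ^ 7) ^ q ≤ ((10 : ℝ) ^ 7) ^ (1 : ℝ) := Real.rpow_le_rpow_of_exponent_le (by norm_num) (by linarith)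
    _ = 10 ^ 7 := Real.rpow_one _

end Pool.Agent.Helper35.AG
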